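import Pool.Agent.Helper75.PX.Stmts3

/-! # PX row K3: an element of a central division algebra of degree three which commutes with
two elements that do not commute is central -/

set_option autoImplicit false

universe u

open Module TensorProduct Polynomial

namespace Pool.Agent.Helper75.PX

theorem st_K3 (h1 : ST_MDV.{u}) (_h2 : ST_MPD.{u}) : ST_K3.{u} := by
  intro K D _ _ _ _ h9 t x y hx hy hxy
  have : FiniteDimensional K D := Module.finite_of_finrank_pos (by omega)
  by_contra hc
  have hnot : ∀ k : K, t ≠ algebraMap K D k := fun k hk => hc ⟨k, hk⟩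
  have hint : IsIntegral K t := Algebra.IsIntegral.isIntegral t
  -- the degree of `t`
  have hdeg : 3 ≤ (minpoly K t).natDegree := by
    have hd := h1 K D t
    rw [h9, show (9 : ℕ) = 3 ^ 2 by norm_num, Nat.dvd_prime_pow Nat.prime_three] at hd
    obtain ⟨k, hk, hk2⟩ := hd
    rw [hk2]
    rcases Nat.eq_zero_or_pos k with h0 | h0
    · exfalso
      rw [h0, pow_zero] at hk2
      obtain ⟨a, ha⟩ := minpoly.natDegree_eq_one_iff.1 hk2
      exact hnot a ha.symm
    · calc 3 = 3 ^ 1 := by norm_num
        _ ≤ 3 ^ k := Nat.pow_le_pow_right (by norm_num) h0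
  -- the centralizer
  let C : Subalgebra K D := Subalgebra.centralizer K ({t} : Set D)
  have hmem : ∀ z : D, z ∈ C ↔ t * z = z * t := by
    intro z
    simp [C, Subalgebra.mem_centralizer_iff]
  let _ : DivisionRing C := divisionRingOfFiniteDimensional K C
  have hdiv : finrank K C * finrank C D = 9 := by
    rw [← h9]
    exact Module.finrank_mul_finrank K C D
  have hdvd : finrank K C ∣ 3 ^ 2 := ⟨finrank C D, by rw [hdiv]; norm_num⟩
  -- the field `K(t)`
  have hirr : Irreducible (minpoly K t) := minpoly.irreducible hint
  have : Fact (Irreducible (minpoly K t)) := ⟨hirr⟩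
  let f : AdjoinRoot (minpoly K t) →ₐ[K] D :=
    Ideal.Quotient.liftₐ (Ideal.span {minpoly K t}) (Polynomial.aeval t) (fun a ha => by
      rw [Ideal.mem_span_singleton] at ha
      obtain ⟨c, rfl⟩ := ha
      rw [map_mul, minpoly.aeval, zero_mul])
  have hft : f (AdjoinRoot.root (minpoly K t)) = t := by
    change (Polynomial.aeval t) X = t
    exact aeval_X t
  have hfinj : Function.Injective f := RingHom.injective (f : AdjoinRoot (minpoly K t) →+* D)
  have hfC : ∀ a, f a ∈ C := by
    intro a
    have h : f (AdjoinRoot.root (minpoly K t)) * f a = f a * f (AdjoinRoot.root (minpoly K t)) := by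
      rw [← map_mul, ← map_mul, mul_comm]
    rw [hft] at h
    exact (hmem _).2 h
  have : FiniteDimensional K (AdjoinRoot (minpoly K t)) :=
    (AdjoinRoot.powerBasis hirr.ne_zero).finite
  let g : AdjoinRoot (minpoly K t) →ₗ[K] C :=
    LinearMap.codRestrict (Subalgebra.toSubmodule C) f.toLinearMap hfC
  have hginj : Function.Injective g := by
    intro a b hab
    apply hfinj
    exact congrArg Subtype.val hab
  have hfr : finrank K (AdjoinRoot (minpoly K t)) = (minpoly K t).natDegree := by
    rw [(AdjoinRoot.powerBasis hirr.ne_zero).finrank, AdjoinRoot.powerBasis_dim]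
  have hle : (minpoly K t).natDegree ≤ finrank K C := by
    rw [← hfr]
    exact LinearMap.finrank_le_finrank_of_injective hginj
  rw [Nat.dvd_prime_pow Nat.prime_three] at hdvd
  obtain ⟨k, hk, hk2⟩ := hdvd
  interval_cases k
  · rw [hk2] at hle
    norm_num at hle
    omega
  · -- `C = K(t)` is commutative
    have hd3 : (minpoly K t).natDegree = finrank K C := by
      rw [hk2] at hle ⊢
      norm_num at hle ⊢
      omega
    have hsurj : Function.Surjective g :=
      (LinearMap.injective_iff_surjective_of_finrank_eq_finrank (hfr.trans hd3)).1 hginj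
    obtain ⟨a, ha⟩ := hsurj ⟨x, (hmem x).2 hx⟩
    obtain ⟨b, hb⟩ := hsurj ⟨y, (hmem y).2 hy⟩
    have ha' : f a = x := congrArg Subtype.val ha
    have hb' : f b = y := congrArg Subtype.val hb
    apply hxy
    rw [← ha', ← hb', ← map_mul, ← map_mul, mul_comm]
  · -- `t` is central
    have htop : Subalgebra.toSubmodule C = ⊤ := by
      apply Submodule.eq_top_of_finrank_eq
      rw [h9]
      have h0 : finrank K (Subalgebra.toSubmodule C) = finrank K C := rfl
      rw [h0, hk2]
      norm_num
    have hcen : t ∈ Subalgebra.center K D := by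
      rw [Subalgebra.mem_center_iff]
      intro z
      have hz : z ∈ Subalgebra.toSubmodule C := by
        rw [htop]
        trivial
      exact ((hmem z).1 hz).symm
    obtain ⟨a, ha⟩ := Algebra.mem_bot.1 (Algebra.IsCentral.out hcen)
    exact hnot a ha.symm

end Pool.Agent.Helper75.PX
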